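import Pool.Agent.Helper86.MPT.MostV

/-!
# Most starting points, with all iterates
-/

set_option autoImplicit false

namespace Pool.Agent.Helper86.MPT

open MvPolynomial Filter Topology
open Pool.Agent.Helper86.MQ (pm)
open Pool.Agent.Helper86.RR (eval_ne_zero eval_le finite_of_shift_set)
open Pool.Agent.Helper86.GT (eval_lower Es eval_bind_iterate)
open Pool.Agent.Helper26.GT (wd Dom ca)

variable {m d e : ℕ}

/-- the iterates as polynomials in the last variable -/
noncomputable def itq (Φ : Fin (m + 1) → MvPolynomial (Fin (m + 1)) ℂ) (β : Fin m → ℂ) :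
    ℕ → Fin (m + 1) → Polynomial ℂ
  | 0 => Fin.snoc (fun i => Polynomial.C (β i)) Polynomial.X
  | n + 1 => fun i => aeval (itq Φ β n) (Φ i)

theorem eval_aeval (p : Fin (m + 1) → Polynomial ℂ) (G : MvPolynomial (Fin (m + 1)) ℂ) (t : ℂ) :
    (aeval p G).eval t = eval (fun i => (p i).eval t) G := by
  induction G using MvPolynomial.induction_on with
  | C a => simp
  | add P Q hP hQ => rw [map_add, Polynomial.eval_add, hP, hQ, map_add]
  | mul_X P i hP => rw [map_mul, Polynomial.eval_mul, hP, aeval_X, map_mul, eval_X]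

theorem eval_itq (Φ : Fin (m + 1) → MvPolynomial (Fin (m + 1)) ℂ) (β : Fin m → ℂ) (t : ℂ) (n : ℕ)
    (i : Fin (m + 1)) :
    (itq Φ β n i).eval t = (pm Φ)^[n] (Fin.snoc β t : Fin (m + 1) → ℂ) i := by
  induction n generalizing i with
  | zero =>
    rw [itq, Function.iterate_zero, id]
    refine Fin.lastCases ?_ (fun i => ?_) i
    · rw [Fin.snoc_last, Fin.snoc_last, Polynomial.eval_X]
    · rw [Fin.snoc_castSucc, Fin.snoc_castSucc, Polynomial.eval_C]
  | succ n ih =>
    rw [itq, eval_aeval, Function.iterate_succ_apply', pm]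
    congr 2
    funext j
    exact ih j

theorem aeval_eq_sum (p : Fin (m + 1) → Polynomial ℂ) (G : MvPolynomial (Fin (m + 1)) ℂ) :
    aeval p G = ∑ s ∈ G.support, Polynomial.C (coeff s G) * ∏ i, p i ^ s i := by
  rw [aeval_def, eval₂_eq']
  rfl

theorem natDegree_term (p : Fin (m + 1) → Polynomial ℂ) (s : Fin (m + 1) →₀ ℕ) :
    (∏ i, p i ^ s i).natDegree ≤ ∑ i, s i * (p i).natDegree := by
  refine (Polynomial.natDegree_prod_le _ _).trans (Finset.sum_le_sum fun i _ => ?_)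
  exact Polynomial.natDegree_pow_le

theorem natDegree_aeval_le (p : Fin (m + 1) → Polynomial ℂ) (D k : ℕ)
    (hp : ∀ i, (p i).natDegree ≤ D) (G : MvPolynomial (Fin (m + 1)) ℂ) (hG : G.totalDegree ≤ k) :
    (aeval p G).natDegree ≤ k * D := by
  rw [aeval_eq_sum]
  refine Polynomial.natDegree_sum_le_of_forall_le _ _ fun s hs => ?_
  refine (Polynomial.natDegree_C_mul_le _ _).trans ((natDegree_term p s).trans ?_)
  calc ∑ i, s i * (p i).natDegree ≤ ∑ i, s i * D :=
        Finset.sum_le_sum fun i _ => Nat.mul_le_mul_left _ (hp i)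
    _ = s.degree * D := by rw [← Finset.sum_mul, Finsupp.degree_eq_sum]
    _ ≤ k * D := Nat.mul_le_mul_right _ ((le_totalDegree hs).trans hG)

theorem coeff_aeval (p : Fin (m + 1) → Polynomial ℂ) (D k : ℕ) (hD : 1 ≤ D)
    (hp : ∀ i : Fin m, (p i.castSucc).natDegree < D) (hp' : (p (Fin.last m)).natDegree ≤ D)
    (G : MvPolynomial (Fin (m + 1)) ℂ) (hG : G.totalDegree ≤ k) :
    (aeval p G).coeff (k * D) =
      coeff (Finsupp.single (Fin.last m) k) G * (p (Fin.last m)).coeff D ^ k := by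
  classical
  rw [aeval_eq_sum, Polynomial.finsetSum_coeff]
  have hkey : ∀ s ∈ G.support, s ≠ Finsupp.single (Fin.last m) k →
      (Polynomial.C (coeff s G) * ∏ i, p i ^ s i).coeff (k * D) = 0 := by
    intro s hs hne
    rw [Polynomial.coeff_C_mul, Polynomial.coeff_eq_zero_of_natDegree_lt, mul_zero]
    refine (natDegree_term p s).trans_lt ?_
    have hdeg : s.degree ≤ k := (le_totalDegree hs).trans hG
    by_cases hex : ∃ i : Fin m, s i.castSucc ≠ 0
    · obtain ⟨i₀, hi₀⟩ := hex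
      refine lt_of_lt_of_le (b := ∑ i, s i * D) ?_ ?_
      · refine Finset.sum_lt_sum (fun i _ => ?_) ⟨i₀.castSucc, Finset.mem_univ _, ?_⟩
        · refine Nat.mul_le_mul_left _ ?_
          refine Fin.lastCases hp' (fun j => (hp j).le) i
        · exact Nat.mul_lt_mul_of_pos_left (hp i₀) (Nat.pos_of_ne_zero hi₀)
      · rw [← Finset.sum_mul, ← Finsupp.degree_eq_sum]
        exact Nat.mul_le_mul_right _ hdeg
    · push Not at hex
      rw [Fin.sum_univ_castSucc, Finset.sum_eq_zero fun i _ => by rw [hex i, zero_mul], zero_add]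
      have h1 : s.degree = s (Fin.last m) := by
        rw [Finsupp.degree_eq_sum, Fin.sum_univ_castSucc,
          Finset.sum_eq_zero fun i _ => hex i, zero_add]
      have h2 : s (Fin.last m) < k := by
        rcases lt_or_eq_of_le (h1 ▸ hdeg : s (Fin.last m) ≤ k) with h3 | h3
        · exact h3
        · exfalso
          apply hne
          ext j
          refine Fin.lastCases ?_ (fun i => ?_) j
          · simp [h3]
          · rw [hex i, Finsupp.single_apply, if_neg (Fin.castSucc_lt_last i).ne']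
      calc s (Fin.last m) * (p (Fin.last m)).natDegree ≤ s (Fin.last m) * D :=
            Nat.mul_le_mul_left _ hp'
        _ < k * D := Nat.mul_lt_mul_of_pos_right h2 hD
  have hmain : (Polynomial.C (coeff (Finsupp.single (Fin.last m) k) G) *
      ∏ i, p i ^ (Finsupp.single (Fin.last m) k : Fin (m + 1) →₀ ℕ) i).coeff (k * D) =
      coeff (Finsupp.single (Fin.last m) k) G * (p (Fin.last m)).coeff D ^ k := by
    rw [Polynomial.coeff_C_mul, Fin.prod_univ_castSucc, Finset.prod_eq_one, one_mul,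
      Finsupp.single_eq_same, Polynomial.coeff_pow_of_natDegree_le hp']
    intro i _
    rw [Finsupp.single_apply, if_neg (Fin.castSucc_lt_last i).ne', pow_zero]
  by_cases hmem : Finsupp.single (Fin.last m) k ∈ G.support
  · rw [Finset.sum_eq_single_of_mem _ hmem hkey, hmain]
  · rw [notMem_support_iff.1 hmem, zero_mul]
    exact Finset.sum_eq_zero fun s hs => hkey s hs fun h => hmem (h ▸ hs)

/-- the leading coefficients -/
noncomputable def la (a : ℂ) (d : ℕ) : ℕ → ℂ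
  | 0 => 1
  | n + 1 => a * la a d n ^ d

theorem la_ne {a : ℂ} (ha : a ≠ 0) (n : ℕ) : la a d n ≠ 0 := by
  induction n with
  | zero => exact one_ne_zero
  | succ n ih => exact mul_ne_zero ha (pow_ne_zero _ ih)

theorem itq_spec (hd : 2 ≤ d) (he : e < d) {Φ : Fin (m + 1) → MvPolynomial (Fin (m + 1)) ℂ}
    (deg : ∀ i, (Φ i).totalDegree ≤ wd d e i) (β : Fin m → ℂ) (n : ℕ) :
    (∀ i : Fin m, (itq Φ β n i.castSucc).natDegree < d ^ n) ∧
      (itq Φ β n (Fin.last m)).natDegree ≤ d ^ n ∧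
      (itq Φ β n (Fin.last m)).coeff (d ^ n) = la (ca d Φ) d n := by
  have hdL : (Φ (Fin.last m)).totalDegree ≤ d := by
    have h1 := deg (Fin.last m)
    rwa [wd, if_pos rfl] at h1
  have hdi : ∀ i : Fin m, (Φ i.castSucc).totalDegree ≤ e := by
    intro i
    have h1 := deg i.castSucc
    rwa [wd, if_neg (Fin.castSucc_lt_last i).ne] at h1
  induction n with
  | zero =>
    rw [itq, pow_zero]
    refine ⟨fun i => ?_, ?_, ?_⟩
    · rw [Fin.snoc_castSucc, Polynomial.natDegree_C]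
      exact one_pos
    · rw [Fin.snoc_last, Polynomial.natDegree_X]
    · rw [Fin.snoc_last, Polynomial.coeff_X_one, la]
  | succ n ih =>
    obtain ⟨h1, h2, h3⟩ := ih
    have hall : ∀ i, (itq Φ β n i).natDegree ≤ d ^ n := by
      intro i
      exact Fin.lastCases h2 (fun i => (h1 i).le) i
    have hpos : 1 ≤ d ^ n := Nat.one_le_pow _ _ (by omega)
    refine ⟨fun i => ?_, ?_, ?_⟩
    · refine lt_of_le_of_lt (natDegree_aeval_le _ _ _ hall _ (hdi i)) ?_
      rw [pow_succ, mul_comm]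
      exact Nat.mul_lt_mul_of_pos_left he hpos
    · refine (natDegree_aeval_le _ _ _ hall _ hdL).trans ?_
      rw [pow_succ, mul_comm]
    · rw [pow_succ, mul_comm (d ^ n) d, itq, coeff_aeval _ _ _ hpos h1 h2 _ hdL, h3, la]
      rfl

/-- lower bound for the leading coefficients -/
theorem la_lower {a : ℂ} {c : ℝ} (hc0 : 0 < c) (hc1 : c ≤ 1) (hca : c ≤ ‖a‖) (hd : 2 ≤ d)
    (n : ℕ) : c ^ d ^ n ≤ c * ‖la a d n‖ := by
  induction n with
  | zero => rw [pow_zero, pow_one, la, norm_one, mul_one]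
  | succ n ih =>
    rw [la, norm_mul, norm_pow, pow_succ, pow_mul]
    have h0 : 0 ≤ ‖la a d n‖ := norm_nonneg _
    calc (c ^ d ^ n) ^ d ≤ (c * ‖la a d n‖) ^ d := pow_le_pow_left₀ (by positivity) ih d
      _ = c ^ d * ‖la a d n‖ ^ d := mul_pow _ _ _
      _ ≤ c ^ 2 * ‖la a d n‖ ^ d := by
          refine mul_le_mul_of_nonneg_right ?_ (by positivity)
          exact pow_le_pow_of_le_one hc0.le hc1 hd
      _ = c * (c * ‖la a d n‖ ^ d) := by ring
      _ ≤ c * (‖a‖ * ‖la a d n‖ ^ d) := by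
          refine mul_le_mul_of_nonneg_left ?_ hc0.le
          exact mul_le_mul_of_nonneg_right hca (by positivity)

/-- Orbits which never escape grow slowly, with an explicit bound. -/
theorem bounded_of_not_escape (hd : 2 ≤ d) (he : e < d)
    {Φ : Fin (m + 1) → MvPolynomial (Fin (m + 1)) ℂ} (deg : ∀ i, (Φ i).totalDegree ≤ wd d e i)
    {lam R₀ S : ℝ} (hlam : 1 ≤ lam) (hR₀ : 1 ≤ R₀) (hS0 : 0 ≤ S)
    (hS : ∀ i, ∑ s ∈ (Φ i).support, nvC (coeff s (Φ i)) ≤ S)
    (x : Fin (m + 1) → ℂ) (B : ℝ) (hB : 1 ≤ B) (hx : ∀ i, nvC (x i) ≤ B)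
    (hn : ∀ n, ¬ Es nvC lam R₀ ((pm Φ)^[n] x)) (n : ℕ) :
    ∀ i, nvC ((pm Φ)^[n] x i) ≤ (R₀ + lam * S) ^ d ^ n * B ^ e ^ n := by
  have hdi : ∀ i : Fin m, (Φ i.castSucc).totalDegree ≤ e := by
    intro i
    have h1 := deg i.castSucc
    rwa [wd, if_neg (Fin.castSucc_lt_last i).ne] at h1
  have hlam0 : 0 ≤ lam := zero_le_one.trans hlam
  have hlS : 0 ≤ lam * S := mul_nonneg hlam0 hS0
  set D : ℝ := R₀ + lam * S with hD
  have hD1 : 1 ≤ D := by linarith
  have hSD : lam * S ≤ D := by linarith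
  have hRD : R₀ ≤ D := by linarith
  induction n with
  | zero =>
    intro i
    rw [Function.iterate_zero, id, pow_zero, pow_one, pow_zero, pow_one]
    exact (hx i).trans (le_mul_of_one_le_left (by linarith) hD1)
  | succ n ih =>
    set M : ℝ := D ^ d ^ n * B ^ e ^ n with hM
    have hM1 : 1 ≤ M := one_le_mul_of_one_le_of_one_le (one_le_pow₀ hD1) (one_le_pow₀ hB)
    have hMe : 1 ≤ M ^ e := one_le_pow₀ hM1
    have hpos : 1 ≤ d ^ n := Nat.one_le_pow _ _ (by omega)
    have hstep : D * M ^ e ≤ D ^ d ^ (n + 1) * B ^ e ^ (n + 1) := by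
      rw [hM, mul_pow, ← pow_mul, ← pow_mul, ← pow_succ, ← mul_assoc, ← pow_succ']
      refine mul_le_mul_of_nonneg_right ?_ (by positivity)
      refine pow_le_pow_right₀ hD1 ?_
      calc d ^ n * e + 1 ≤ d ^ n * e + d ^ n := by omega
        _ = d ^ n * (e + 1) := by ring
        _ ≤ d ^ n * d := Nat.mul_le_mul_left _ he
        _ = d ^ (n + 1) := (pow_succ _ _).symm
    have hy : ∀ i, (pm Φ)^[n + 1] x i = eval ((pm Φ)^[n] x) (Φ i) := by
      intro i
      rw [Function.iterate_succ_apply', pm]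
    have hold : ∀ i : Fin m, nvC ((pm Φ)^[n + 1] x i.castSucc) ≤ S * M ^ e := by
      intro i
      rw [hy]
      refine (eval_le nvC (hdi i) _ M hM1 ih).trans ?_
      exact mul_le_mul_of_nonneg_right (hS _) (by positivity)
    intro i
    refine le_trans ?_ hstep
    refine Fin.lastCases ?_ (fun i => ?_) i
    · have hnot := hn (n + 1)
      rw [Es, not_and_or] at hnot
      rcases hnot with h1 | h1
      · push Not at h1
        calc nvC ((pm Φ)^[n + 1] x (Fin.last m)) ≤ R₀ * 1 := by rw [mul_one]; exact h1.le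
          _ ≤ D * M ^ e := mul_le_mul hRD hMe zero_le_one (by linarith)
      · push Not at h1
        obtain ⟨i, hi⟩ := h1
        calc nvC ((pm Φ)^[n + 1] x (Fin.last m))
            ≤ lam * nvC ((pm Φ)^[n + 1] x i.castSucc) := hi.le
          _ ≤ lam * (S * M ^ e) := mul_le_mul_of_nonneg_left (hold i) hlam0
          _ = lam * S * M ^ e := by ring
          _ ≤ D * M ^ e := mul_le_mul_of_nonneg_right hSD (by positivity)
    · refine (hold i).trans ?_
      refine mul_le_mul_of_nonneg_right ?_ (by positivity)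
      refine le_trans ?_ hSD
      exact le_mul_of_one_le_left hS0 hlam

/-- the exceptional starting points -/
def Bad (Φ : Fin (m + 1) → MvPolynomial (Fin (m + 1)) ℂ) (B : ℕ) : Set (Fin (m + 1) → ℤ) :=
  {α | (∀ i, |α i| ≤ (B : ℤ)) ∧ ∃ F : MvPolynomial (Fin (m + 1)) ℂ, F ≠ 0 ∧
    {n | eval ((pm Φ)^[n] (fun i => (α i : ℂ))) F = 0}.Infinite}

/-- **Most starting points**, with all iterates. -/
theorem most_uniform (hd : 2 ≤ d) (he : e < d)
    {Φ : Fin (m + 1) → MvPolynomial (Fin (m + 1)) ℂ} (deg : ∀ i, (Φ i).totalDegree ≤ wd d e i)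
    (top : ca d Φ ≠ 0)
    (hT : ∀ F : MvPolynomial (Fin (m + 1)) ℂ, F ≠ 0 → ∃ k,
      coeff (Finsupp.single (Fin.last m) (((fun G => bind₁ Φ G)^[k] F).totalDegree))
        ((fun G => bind₁ Φ G)^[k] F) ≠ 0) :
    ∃ κ : ℝ, 0 ≤ κ ∧ ∀ B : ℕ, 1 ≤ B → ∀ n : ℕ, (Bad Φ B).Finite ∧
      ((Bad Φ B).ncard : ℝ) ≤ ((2 * B + 1 : ℕ) : ℝ) ^ m *
        ((d : ℝ) ^ n * (2 * (κ * (B : ℝ) ^ (((e : ℝ) / d) ^ n)) + 1)) := by
  classical
  obtain ⟨lam, R₀, hlam1, hR₀1, htrap⟩ := trapped nvC hd he deg top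
  set S : ℝ := ∑ i, ∑ s ∈ (Φ i).support, nvC (coeff s (Φ i)) with hS
  have hSi0 : ∀ i, 0 ≤ ∑ s ∈ (Φ i).support, nvC (coeff s (Φ i)) :=
    fun i => Finset.sum_nonneg fun s _ => nvC.nonneg _
  have hS0 : 0 ≤ S := Finset.sum_nonneg fun i _ => hSi0 i
  have hSi : ∀ i, ∑ s ∈ (Φ i).support, nvC (coeff s (Φ i)) ≤ S := fun i =>
    Finset.single_le_sum (f := fun i => ∑ s ∈ (Φ i).support, nvC (coeff s (Φ i)))
      (fun i _ => hSi0 i) (Finset.mem_univ i)
  set a : ℂ := ca d Φ with ha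
  have han : 0 < ‖a‖ := norm_pos_iff.2 top
  set D : ℝ := R₀ + lam * S with hD
  have hD0 : 0 < D := by positivity
  set c : ℝ := min 1 ‖a‖ with hc
  have hc0 : 0 < c := lt_min one_pos han
  have hc1 : c ≤ 1 := min_le_left _ _
  have hca : c ≤ ‖a‖ := min_le_right _ _
  have hdR : (0 : ℝ) < d := by
    have : 0 < d := by omega
    exact_mod_cast this
  refine ⟨D / c, by positivity, fun B hB n => ?_⟩
  have hB1 : (1 : ℝ) ≤ B := by exact_mod_cast hB
  have hB0 : (0 : ℝ) < B := zero_lt_one.trans_le hB1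
  set s : ℝ := D / c * (B : ℝ) ^ (((e : ℝ) / d) ^ n) with hs
  have hs0 : 0 ≤ s := mul_nonneg (by positivity) (Real.rpow_nonneg hB0.le _)
  have hBpow : ((B : ℝ) ^ (((e : ℝ) / d) ^ n)) ^ d ^ n = (B : ℝ) ^ e ^ n := by
    rw [← Real.rpow_natCast, ← Real.rpow_mul hB0.le, ← Real.rpow_natCast (B : ℝ) (e ^ n)]
    congr 1
    push_cast
    rw [div_pow, div_mul_cancel₀ _ (pow_ne_zero _ hdR.ne')]
  have hsd : D ^ d ^ n * (B : ℝ) ^ e ^ n ≤ ‖la a d n‖ * s ^ d ^ n := by
    rw [hs, mul_pow, hBpow, div_pow, ← mul_assoc]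
    refine mul_le_mul_of_nonneg_right ?_ (by positivity)
    have h1 := la_lower hc0 hc1 hca hd n
    have h2 : c ^ d ^ n ≤ ‖la a d n‖ :=
      h1.trans (mul_le_of_le_one_left (norm_nonneg _) hc1)
    rw [mul_div_assoc', le_div_iff₀ (by positivity), mul_comm]
    exact mul_le_mul_of_nonneg_right h2 (by positivity)
  -- the slices
  have hsl : ∀ β : Fin m → ℤ, ∃ A : Finset ℤ, (A.card : ℝ) ≤ (d : ℝ) ^ n * (2 * s + 1) ∧
      ∀ t : ℤ, ‖(pm Φ)^[n] (Fin.snoc (fun i => (β i : ℂ)) (t : ℂ) : Fin (m + 1) → ℂ)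
        (Fin.last m)‖ ≤ ‖la a d n‖ * s ^ d ^ n → t ∈ A := by
    intro β
    obtain ⟨-, h1, h2⟩ := itq_spec hd he deg (fun i => (β i : ℂ)) n
    set q := itq Φ (fun i => (β i : ℂ)) n (Fin.last m) with hq
    have h3 : q.natDegree = d ^ n := by
      refine le_antisymm h1 (Polynomial.le_natDegree_of_ne_zero ?_)
      rw [h2]
      exact la_ne top n
    have h4 : q.leadingCoeff = la a d n := by rw [Polynomial.leadingCoeff, h3, h2]
    have hpos : 1 ≤ d ^ n := Nat.one_le_pow _ _ (by omega)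
    obtain ⟨A, hA1, hA2⟩ := card_small q (by omega) s hs0
    refine ⟨A, ?_, fun t ht => hA2 t ?_⟩
    · rw [h3] at hA1
      exact_mod_cast hA1
    · rw [hq, eval_itq, ← hq, h4, h3]
      exact ht
  choose A hA1 hA2 using hsl
  set I : Finset ℤ := Finset.Icc (-(B : ℤ)) B with hI
  set big : Finset (Fin (m + 1) → ℤ) := (Fintype.piFinset fun _ : Fin m => I).biUnion fun β =>
    (A β).image fun t => (Fin.snoc β t : Fin (m + 1) → ℤ) with hbig
  have hsub : Bad Φ B ⊆ (big : Set _) := by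
    rintro α ⟨hα, F, hF, hinf⟩
    rw [hbig, Finset.mem_coe, Finset.mem_biUnion]
    refine ⟨fun i => α i.castSucc, ?_, ?_⟩
    · rw [Fintype.mem_piFinset]
      intro i
      rw [hI, Finset.mem_Icc]
      exact abs_le.1 (hα _)
    rw [Finset.mem_image]
    refine ⟨α (Fin.last m), ?_, ?_⟩
    · apply hA2
      have hsnoc : (Fin.snoc (fun i : Fin m => ((α i.castSucc : ℤ) : ℂ))
          ((α (Fin.last m) : ℤ) : ℂ) : Fin (m + 1) → ℂ) = fun i => (α i : ℂ) := by
        funext i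
        refine Fin.lastCases ?_ (fun i => ?_) i
        · rw [Fin.snoc_last]
        · rw [Fin.snoc_castSucc]
      rw [hsnoc]
      obtain ⟨k, hk⟩ := hT F hF
      have hnot : ∀ n, ¬ Es nvC lam R₀ ((pm Φ)^[n] (fun i => (α i : ℂ))) := fun n hE =>
        hinf (htrap _ ⟨n, hE⟩ F k hk)
      have hαn : ∀ i, nvC ((fun i => (α i : ℂ)) i) ≤ B := by
        intro i
        change ‖((α i : ℤ) : ℂ)‖ ≤ B
        rw [Complex.norm_intCast]
        exact_mod_cast hα i
      exact (bounded_of_not_escape hd he deg hlam1 hR₀1 hS0 hSi _ B hB1 hαn hnot n _).trans hsd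
    · funext i
      refine Fin.lastCases ?_ (fun i => ?_) i
      · rw [Fin.snoc_last]
      · rw [Fin.snoc_castSucc]
  refine ⟨big.finite_toSet.subset hsub, ?_⟩
  have hcard : ((Bad Φ B).ncard : ℝ) ≤ big.card := by
    rw [← Set.ncard_coe_finset]
    exact_mod_cast Set.ncard_le_ncard hsub big.finite_toSet
  refine hcard.trans ?_
  calc (big.card : ℝ) ≤ ∑ β ∈ Fintype.piFinset fun _ : Fin m => I,
        (((A β).image fun t => (Fin.snoc β t : Fin (m + 1) → ℤ)).card : ℝ) := by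
        exact_mod_cast Finset.card_biUnion_le
    _ ≤ ∑ _β ∈ Fintype.piFinset fun _ : Fin m => I, (d : ℝ) ^ n * (2 * s + 1) := by
        refine Finset.sum_le_sum fun β _ => ?_
        refine le_trans ?_ (hA1 β)
        exact_mod_cast Finset.card_image_le
    _ = ((2 * B + 1 : ℕ) : ℝ) ^ m * ((d : ℝ) ^ n * (2 * s + 1)) := by
        rw [Finset.sum_const, nsmul_eq_mul, Fintype.card_piFinset, Finset.prod_const,
          Finset.card_univ, Fintype.card_fin]
        have hIc : I.card = 2 * B + 1 := by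
          rw [hI, Int.card_Icc]
          omega
        rw [hIc]
        push_cast
        ring

/-- The choice of the iterate. -/
theorem choose_iterate (hd : 2 ≤ d) (he1 : 1 ≤ e) (he : e < d) (B : ℕ) (hB : 1 ≤ B) :
    ∃ n : ℕ, (B : ℝ) ^ (((e : ℝ) / d) ^ n) ≤ Real.exp 1 ∧
      (d : ℝ) ^ n ≤ d * (1 + Real.log B) ^ (Real.log d / Real.log (d / e)) := by
  have hB1 : (1 : ℝ) ≤ B := by exact_mod_cast hB
  have hB0 : (0 : ℝ) < B := zero_lt_one.trans_le hB1
  have heR : (0 : ℝ) < e := by exact_mod_cast he1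
  have hdR : (0 : ℝ) < d := by
    have : 0 < d := by omega
    exact_mod_cast this
  have hed : (e : ℝ) < d := by exact_mod_cast he
  have h1d : (1 : ℝ) < d := by
    have : 1 < d := by omega
    exact_mod_cast this
  have hlogB : 0 ≤ Real.log B := Real.log_nonneg hB1
  set L : ℝ := 1 + Real.log B with hL
  have hL1 : 1 ≤ L := by linarith
  have hL0 : 0 < L := by linarith
  have hlL : 0 ≤ Real.log L := Real.log_nonneg hL1
  set ρ : ℝ := Real.log (d / e) with hρ
  have hρ0 : 0 < ρ := Real.log_pos ((one_lt_div heR).2 hed)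
  have hld : 0 < Real.log d := Real.log_pos h1d
  refine ⟨⌈Real.log L / ρ⌉₊, ?_, ?_⟩
  · set n := ⌈Real.log L / ρ⌉₊ with hn
    have h1 : Real.log L / ρ ≤ n := Nat.le_ceil _
    rw [div_le_iff₀ hρ0] at h1
    have h2 : ((e : ℝ) / d) ^ n ≤ 1 / L := by
      have h3 : ((e : ℝ) / d) ^ n = Real.exp (-(n * ρ)) := by
        rw [hρ, ← mul_neg, ← Real.log_inv, inv_div, Real.exp_nat_mul, Real.exp_log (by positivity)]
      rw [h3, one_div, ← Real.exp_log hL0, ← Real.exp_neg]
      exact Real.exp_le_exp.2 (neg_le_neg h1)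
    rw [Real.rpow_def_of_pos hB0, Real.exp_le_exp]
    calc Real.log B * ((e : ℝ) / d) ^ n ≤ Real.log B * (1 / L) :=
          mul_le_mul_of_nonneg_left h2 hlogB
      _ = Real.log B / L := by ring
      _ ≤ 1 := by
          rw [div_le_one hL0]
          linarith
  · set n := ⌈Real.log L / ρ⌉₊ with hn
    have h1 : (n : ℝ) ≤ Real.log L / ρ + 1 := (Nat.ceil_lt_add_one (by positivity)).le
    have h2 : (d : ℝ) ^ n = Real.exp (n * Real.log d) := by
      rw [Real.exp_nat_mul, Real.exp_log hdR]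
    have h3 : (d : ℝ) * L ^ (Real.log d / ρ) = Real.exp ((Real.log L / ρ + 1) * Real.log d) := by
      rw [Real.rpow_def_of_pos hL0, ← Real.exp_log hdR, ← Real.exp_add, Real.exp_log hdR]
      congr 1
      field_simp
      ring
    rw [h2, h3, Real.exp_le_exp]
    exact mul_le_mul_of_nonneg_right h1 hld.le

/-- **Most starting points**: the number of the exceptional ones is `O(B^(N-1) (log B)^κ)`. -/
theorem most_log (hd : 2 ≤ d) (he1 : 1 ≤ e) (he : e < d)
    {Φ : Fin (m + 1) → MvPolynomial (Fin (m + 1)) ℂ} (deg : ∀ i, (Φ i).totalDegree ≤ wd d e i)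
    (top : ca d Φ ≠ 0)
    (hT : ∀ F : MvPolynomial (Fin (m + 1)) ℂ, F ≠ 0 → ∃ k,
      coeff (Finsupp.single (Fin.last m) (((fun G => bind₁ Φ G)^[k] F).totalDegree))
        ((fun G => bind₁ Φ G)^[k] F) ≠ 0) :
    ∃ C : ℝ, ∀ B : ℕ, 1 ≤ B → (Bad Φ B).Finite ∧
      ((Bad Φ B).ncard : ℝ) ≤ C * (B : ℝ) ^ m *
        (1 + Real.log B) ^ (Real.log d / Real.log (d / e)) := by
  obtain ⟨κ, hκ, h⟩ := most_uniform hd he deg top hT
  refine ⟨(3 : ℝ) ^ m * (d * (2 * (κ * Real.exp 1) + 1)), fun B hB => ?_⟩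
  have hB1 : (1 : ℝ) ≤ B := by exact_mod_cast hB
  have hB0 : (0 : ℝ) < B := zero_lt_one.trans_le hB1
  have hdR : (0 : ℝ) < d := by
    have : 0 < d := by omega
    exact_mod_cast this
  obtain ⟨n, hn1, hn2⟩ := choose_iterate hd he1 he B hB
  obtain ⟨h1, h2⟩ := h B hB n
  refine ⟨h1, h2.trans ?_⟩
  have hlog : 0 ≤ 1 + Real.log (B : ℝ) := by
    have := Real.log_nonneg hB1
    linarith
  have h3 : ((2 * B + 1 : ℕ) : ℝ) ^ m ≤ (3 : ℝ) ^ m * (B : ℝ) ^ m := by
    rw [← mul_pow]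
    refine pow_le_pow_left₀ (by positivity) ?_ m
    push_cast
    linarith
  have h4 : 2 * (κ * (B : ℝ) ^ (((e : ℝ) / d) ^ n)) + 1 ≤ 2 * (κ * Real.exp 1) + 1 := by
    have := mul_le_mul_of_nonneg_left hn1 hκ
    linarith
  have h5 : 0 ≤ (B : ℝ) ^ (((e : ℝ) / d) ^ n) := Real.rpow_nonneg hB0.le _
  have h6 : 0 ≤ (1 + Real.log (B : ℝ)) ^ (Real.log d / Real.log (d / e)) :=
    Real.rpow_nonneg hlog _
  calc ((2 * B + 1 : ℕ) : ℝ) ^ m * ((d : ℝ) ^ n * (2 * (κ * (B : ℝ) ^ (((e : ℝ) / d) ^ n)) + 1))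
      ≤ ((3 : ℝ) ^ m * (B : ℝ) ^ m) *
        ((d * (1 + Real.log B) ^ (Real.log d / Real.log (d / e))) *
          (2 * (κ * Real.exp 1) + 1)) := by
        refine mul_le_mul h3 ?_ (by positivity) (by positivity)
        exact mul_le_mul hn2 h4 (by positivity) (by positivity)
    _ = _ := by ring

/-- **Most starting points, for arbitrary degree vectors whose maximum is attained once.** -/
theorem most_log_v {w : Fin (m + 1) → ℕ} (he1 : 1 ≤ e)
    (hw : ∀ i : Fin m, 1 ≤ w i.castSucc ∧ w i.castSucc < w (Fin.last m))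
    (he : ∀ i : Fin m, w i.castSucc ≤ e) (hed : e < w (Fin.last m))
    {Φ : Fin (m + 1) → MvPolynomial (Fin (m + 1)) ℂ} (hΦ : Pool.Agent.Helper26.DV.VDom w Φ) :
    ∃ C : ℝ, ∀ B : ℕ, 1 ≤ B → (Bad Φ B).Finite ∧
      ((Bad Φ B).ncard : ℝ) ≤ C * (B : ℝ) ^ m *
        (1 + Real.log B) ^ (Real.log (w (Fin.last m)) / Real.log (w (Fin.last m) / e)) := by
  exact most_log (by omega) he1 hed (vdom_deg he hΦ) (vdom_top hw (by omega) hΦ)
    fun _ hF => Pool.Agent.Helper26.DV.term hw (by omega) hΦ hF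

end Pool.Agent.Helper86.MPT
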