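import Pool.Agent.Helper86.GT.Gap

/-!
# Most starting points
-/

set_option autoImplicit false

namespace Pool.Agent.Helper86.MPT

open MvPolynomial Filter Topology
open Pool.Agent.Helper86.MQ (pm)
open Pool.Agent.Helper86.RR (eval_ne_zero eval_le finite_of_shift_set)
open Pool.Agent.Helper86.GT (eval_lower Es eval_bind_iterate)
open Pool.Agent.Helper26.GT (wd Dom ca)

variable {K : Type*} [Field K] {m d e : ℕ}

/-- Orbits which enter the escaping region have finite return sets. -/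
theorem trapped (v : AbsoluteValue K ℝ) (hd : 2 ≤ d) (he : e < d)
    {Φ : Fin (m + 1) → MvPolynomial (Fin (m + 1)) K} (deg : ∀ i, (Φ i).totalDegree ≤ wd d e i)
    (top : ca d Φ ≠ 0) : ∃ lam R₀ : ℝ, 1 ≤ lam ∧ 1 ≤ R₀ ∧ ∀ x : Fin (m + 1) → K,
    (∃ n, Es v lam R₀ ((pm Φ)^[n] x)) → ∀ (F : MvPolynomial (Fin (m + 1)) K) (k : ℕ),
      coeff (Finsupp.single (Fin.last m) (((fun G => bind₁ Φ G)^[k] F).totalDegree))
        ((fun G => bind₁ Φ G)^[k] F) ≠ 0 → {n | eval ((pm Φ)^[n] x) F = 0}.Finite := by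
  classical
  set C : ℝ := 1 + ∑ i, ∑ s ∈ (Φ i).support, v (coeff s (Φ i)) with hC
  have hCi0 : ∀ i, 0 ≤ ∑ s ∈ (Φ i).support, v (coeff s (Φ i)) :=
    fun i => Finset.sum_nonneg fun s _ => v.nonneg _
  have hC1 : 1 ≤ C := by
    have := Finset.sum_nonneg fun i (_ : i ∈ (Finset.univ : Finset (Fin (m + 1)))) => hCi0 i
    rw [hC]
    linarith
  have hCi : ∀ i, ∑ s ∈ (Φ i).support, v (coeff s (Φ i)) ≤ C := by
    intro i
    have := Finset.single_le_sum (f := fun i => ∑ s ∈ (Φ i).support, v (coeff s (Φ i)))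
      (fun i _ => hCi0 i) (Finset.mem_univ i)
    rw [hC]
    linarith
  have hC0 : 0 < C := zero_lt_one.trans_le hC1
  have hdL : (Φ (Fin.last m)).totalDegree ≤ d := by
    have h1 := deg (Fin.last m)
    rwa [wd, if_pos rfl] at h1
  have hdi : ∀ i : Fin m, (Φ i.castSucc).totalDegree ≤ e := by
    intro i
    have h1 := deg i.castSucc
    rwa [wd, if_neg (Fin.castSucc_lt_last i).ne] at h1
  set α : ℝ := v (ca d Φ) with hα
  have hα0 : 0 < α := v.pos top
  set lam : ℝ := 1 + 2 * C / α with hlam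
  have hlam1 : 1 ≤ lam := by
    have : 0 ≤ 2 * C / α := by positivity
    linarith
  have hlam0 : 0 < lam := zero_lt_one.trans_le hlam1
  have hlamC : C / lam ≤ α / 2 := by
    rw [div_le_iff₀ hlam0, hlam]
    have : α / 2 * (1 + 2 * C / α) = α / 2 + C := by field_simp
    rw [this]
    linarith
  set R₀ : ℝ := lam + 4 / α + 2 * lam * C / α with hR₀
  have hp1 : 0 ≤ 4 / α := by positivity
  have hp2 : 0 ≤ 2 * lam * C / α := by positivity
  have hR₀lam : lam ≤ R₀ := by linarith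
  have hR₀1 : 1 ≤ R₀ := hlam1.trans hR₀lam
  refine ⟨lam, R₀, hlam1, hR₀1, fun x hex => ?_⟩
  set y : ℕ → Fin (m + 1) → K := fun n => (pm Φ)^[n] x with hy
  have hy1 : ∀ n i, y (n + 1) i = eval (y n) (Φ i) := by
    intro n i
    simp only [hy]
    rw [Function.iterate_succ_apply', pm]
  have hold : ∀ n (i : Fin m) (R : ℝ), 1 ≤ R → (∀ j, v (y n j) ≤ R) →
      v (y (n + 1) i.castSucc) ≤ C * R ^ e := by
    intro n i R hR hyR
    rw [hy1]
    refine (eval_le v (hdi i) _ R hR hyR).trans ?_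
    exact mul_le_mul_of_nonneg_right (hCi _) (by positivity)
  -- the lower bound in the escaping region
  have hlow : ∀ n, Es v lam R₀ (y n) →
      α / 2 * v (y n (Fin.last m)) ^ d ≤ v (y (n + 1) (Fin.last m)) := by
    intro n hE
    set ρ := v (y n (Fin.last m)) with hρ
    have hρ1 : 1 ≤ ρ := hR₀1.trans hE.1
    have hρ0 : 0 < ρ := zero_lt_one.trans_le hρ1
    have h1 := eval_lower v (y n) (ρ / lam) ρ
      ((one_le_div hlam0).2 (hR₀lam.trans hE.1)) (div_le_self hρ0.le hlam1) rfl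
      (fun i => by rw [le_div_iff₀ hlam0, mul_comm]; exact hE.2 i) (Φ (Fin.last m)) d hdL
    rw [← hy1] at h1
    have h2 : (∑ s ∈ (Φ (Fin.last m)).support, v (coeff s (Φ (Fin.last m)))) *
        (ρ / lam * ρ ^ d) ≤ ρ * (α / 2 * ρ ^ d) := by
      calc (∑ s ∈ (Φ (Fin.last m)).support, v (coeff s (Φ (Fin.last m)))) * (ρ / lam * ρ ^ d)
          ≤ C * (ρ / lam * ρ ^ d) := mul_le_mul_of_nonneg_right (hCi _) (by positivity)
        _ = C / lam * (ρ * ρ ^ d) := by ring
        _ ≤ α / 2 * (ρ * ρ ^ d) := mul_le_mul_of_nonneg_right hlamC (by positivity)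
        _ = ρ * (α / 2 * ρ ^ d) := by ring
    have h3 : ρ * (α * ρ ^ d) ≤ ρ * v (y (n + 1) (Fin.last m)) + ρ * (α / 2 * ρ ^ d) :=
      h1.trans (add_le_add le_rfl h2)
    have h4 : ρ * (α / 2 * ρ ^ d) ≤ ρ * v (y (n + 1) (Fin.last m)) := by
      have h5 : ρ * (α * ρ ^ d) = ρ * (α / 2 * ρ ^ d) + ρ * (α / 2 * ρ ^ d) := by ring
      linarith
    exact le_of_mul_le_mul_left h4 hρ0
  have hbd : ∀ n, Es v lam R₀ (y n) → ∀ j, v (y n j) ≤ v (y n (Fin.last m)) := by
    intro n hE j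
    refine Fin.lastCases le_rfl (fun i => ?_) j
    refine le_trans ?_ (hE.2 i)
    exact le_mul_of_one_le_left (v.nonneg _) hlam1
  have hstep : ∀ n, Es v lam R₀ (y n) → Es v lam R₀ (y (n + 1)) ∧
      2 * v (y n (Fin.last m)) ≤ v (y (n + 1) (Fin.last m)) := by
    intro n hE
    have hb := hlow n hE
    set ρ := v (y n (Fin.last m)) with hρ
    have hρ1 : 1 ≤ ρ := hR₀1.trans hE.1
    have hρ0 : 0 < ρ := zero_lt_one.trans_le hρ1
    have h1 : 2 * ρ ≤ v (y (n + 1) (Fin.last m)) := by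
      refine le_trans ?_ hb
      have h2 : 4 / α ≤ ρ := by linarith [hE.1]
      rw [div_le_iff₀ hα0] at h2
      have h3 : ρ ^ 2 ≤ ρ ^ d := pow_le_pow_right₀ hρ1 hd
      calc 2 * ρ = 4 / 2 * ρ := by norm_num
        _ ≤ (ρ * α) / 2 * ρ := by
            refine mul_le_mul_of_nonneg_right ?_ hρ0.le
            linarith
        _ = α / 2 * ρ ^ 2 := by ring
        _ ≤ α / 2 * ρ ^ d := mul_le_mul_of_nonneg_left h3 (by positivity)
    refine ⟨⟨by linarith [hE.1], fun i => ?_⟩, h1⟩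
    have h2 := hold n i ρ hρ1 (hbd n hE)
    refine le_trans (mul_le_mul_of_nonneg_left h2 hlam0.le) (le_trans ?_ hb)
    have h3 : 2 * lam * C / α ≤ ρ := by linarith [hE.1]
    rw [div_le_iff₀ hα0] at h3
    have h4 : ρ ^ (e + 1) ≤ ρ ^ d := pow_le_pow_right₀ hρ1 he
    calc lam * (C * ρ ^ e) = (2 * lam * C) / 2 * ρ ^ e := by ring
      _ ≤ (ρ * α) / 2 * ρ ^ e := by
          refine mul_le_mul_of_nonneg_right ?_ (by positivity)
          linarith
      _ = α / 2 * ρ ^ (e + 1) := by ring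
      _ ≤ α / 2 * ρ ^ d := mul_le_mul_of_nonneg_left h4 (by positivity)
  obtain ⟨n₀, hn₀⟩ := hex
  have hall : ∀ k, Es v lam R₀ (y (n₀ + k)) ∧ (2 : ℝ) ^ k ≤ v (y (n₀ + k) (Fin.last m)) := by
    intro k
    induction k with
    | zero => exact ⟨hn₀, by simpa using hR₀1.trans hn₀.1⟩
    | succ k ih =>
      have h1 := hstep _ ih.1
      refine ⟨h1.1, ?_⟩
      rw [pow_succ, ← add_assoc]
      linarith [h1.2, ih.2]
  intro F k hk
  set G := (fun G => bind₁ Φ G)^[k] F with hG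
  set cG := v (coeff (Finsupp.single (Fin.last m) G.totalDegree) G) with hcG
  have hcG0 : 0 < cG := v.pos hk
  set S : ℝ := ∑ s ∈ G.support, v (coeff s G) with hS
  have hS0 : 0 ≤ S := Finset.sum_nonneg fun s _ => v.nonneg _
  obtain ⟨N, hN⟩ : ∃ N : ℕ, ∀ k, N ≤ k → 2 * (S * C) / (cG * α) + 1 ≤ (2 : ℝ) ^ k :=
    ((tendsto_pow_atTop_atTop_of_one_lt
      (by norm_num : (1 : ℝ) < 2)).eventually_ge_atTop _).exists_forall_of_atTop
  have hfin : ∀ k, N ≤ k → eval (y (n₀ + k + 1)) G ≠ 0 := by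
    intro k hk
    obtain ⟨hE, h2k⟩ := hall k
    have hb := hlow _ hE
    obtain ⟨hE', -⟩ := hstep _ hE
    have hold' := fun i => hold (n₀ + k) i _ (hR₀1.trans hE.1) (hbd _ hE)
    set ρ := v (y (n₀ + k) (Fin.last m)) with hρ
    have hρ1 : 1 ≤ ρ := hR₀1.trans hE.1
    have hρ0 : 0 < ρ := zero_lt_one.trans_le hρ1
    have h1 : 1 ≤ C * ρ ^ e := one_le_mul_of_one_le_of_one_le hC1 (one_le_pow₀ hρ1)
    have h4 : ρ ^ (e + 1) ≤ ρ ^ d := pow_le_pow_right₀ hρ1 he
    have h5 : 2 * (S * C) / (cG * α) + 1 ≤ ρ := (hN k hk).trans h2k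
    have h6 : 2 * (S * C) < ρ * (cG * α) := by
      rw [← div_lt_iff₀ (by positivity)]
      linarith
    have h7 : S * (C * ρ ^ e) < cG * v (y (n₀ + k + 1) (Fin.last m)) := by
      calc S * (C * ρ ^ e) = (2 * (S * C)) * (ρ ^ e / 2) := by ring
        _ < (ρ * (cG * α)) * (ρ ^ e / 2) := mul_lt_mul_of_pos_right h6 (by positivity)
        _ = cG * (α / 2 * ρ ^ (e + 1)) := by ring
        _ ≤ cG * (α / 2 * ρ ^ d) := by
            refine mul_le_mul_of_nonneg_left ?_ hcG0.le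
            exact mul_le_mul_of_nonneg_left h4 (by positivity)
        _ ≤ cG * v (y (n₀ + k + 1) (Fin.last m)) := mul_le_mul_of_nonneg_left hb hcG0.le
    refine eval_ne_zero v (y (n₀ + k + 1)) (C * ρ ^ e) _ h1 ?_ rfl (fun i => hold' i) G h7
    have h3 : 2 * lam * C / α ≤ ρ := by linarith [hE.1]
    rw [div_le_iff₀ hα0] at h3
    refine le_trans ?_ hb
    calc C * ρ ^ e ≤ lam * (C * ρ ^ e) := le_mul_of_one_le_left (by positivity) hlam1
      _ = (2 * lam * C) / 2 * ρ ^ e := by ring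
      _ ≤ (ρ * α) / 2 * ρ ^ e := by
          refine mul_le_mul_of_nonneg_right ?_ (by positivity)
          linarith
      _ = α / 2 * ρ ^ (e + 1) := by ring
      _ ≤ α / 2 * ρ ^ d := mul_le_mul_of_nonneg_left h4 (by positivity)
  refine finite_of_shift_set k
    (((Finset.range (n₀ + N + 1)).finite_toSet).subset fun n hn => ?_)
  by_contra h1
  have h2 : n₀ + N + 1 ≤ n := by
    by_contra h3
    exact h1 (by simpa using h3)
  obtain ⟨j, rfl⟩ : ∃ j, n = n₀ + (N + j) + 1 := ⟨n - (n₀ + N + 1), by omega⟩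
  refine hfin (N + j) (by omega) ?_
  rw [hG, eval_bind_iterate, hy, ← Function.iterate_add_apply, add_comm k]
  exact hn

theorem pow_card_lt_prod (M : Multiset ℝ) (hM : M ≠ 0) (s : ℝ) (hs : 0 ≤ s)
    (h : ∀ x ∈ M, s < x) : s ^ M.card < M.prod := by
  induction M using Multiset.induction_on with
  | empty => exact absurd rfl hM
  | cons a M ih =>
    rw [Multiset.card_cons, Multiset.prod_cons, pow_succ, mul_comm]
    have ha : s < a := h a (Multiset.mem_cons_self _ _)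
    by_cases h0 : M = 0
    · subst h0
      simpa using ha
    · have h1 := ih h0 fun x hx => h x (Multiset.mem_cons_of_mem hx)
      have h2 : 0 ≤ s ^ M.card := pow_nonneg hs _
      calc s * s ^ M.card ≤ a * s ^ M.card := mul_le_mul_of_nonneg_right ha.le h2
        _ < a * M.prod := mul_lt_mul_of_pos_left h1 (hs.trans_lt ha)

/-- A small value at `t` forces a root close to `t`. -/
theorem exists_root_close (q : Polynomial ℂ) (hq : 1 ≤ q.natDegree) (t : ℂ) (s : ℝ) (hs : 0 ≤ s)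
    (h : ‖q.eval t‖ ≤ ‖q.leadingCoeff‖ * s ^ q.natDegree) :
    ∃ ρ ∈ q.roots, ‖t - ρ‖ ≤ s := by
  by_contra hcon
  push Not at hcon
  have hq0 : q ≠ 0 := by
    rintro rfl
    simp at hq
  have hsp : q.Splits := IsAlgClosed.splits q
  have hcard : q.roots.card = q.natDegree := hsp.natDegree_eq_card_roots.symm
  have h1 : q.eval t = q.leadingCoeff * (q.roots.map fun ρ => t - ρ).prod := by
    conv_lhs => rw [hsp.eq_prod_roots]
    rw [Polynomial.eval_mul, Polynomial.eval_C, Polynomial.eval_multiset_prod, Multiset.map_map]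
    congr 2
    refine Multiset.map_congr rfl fun ρ _ => ?_
    simp
  have h2 : ‖q.eval t‖ = ‖q.leadingCoeff‖ * (q.roots.map fun ρ => ‖t - ρ‖).prod := by
    rw [h1, norm_mul]
    congr 1
    have h3 := map_multiset_prod (normHom : ℂ →*₀ ℝ) (q.roots.map fun ρ => t - ρ)
    rw [Multiset.map_map] at h3
    exact h3
  have h3 : s ^ (q.roots.map fun ρ => ‖t - ρ‖).card < (q.roots.map fun ρ => ‖t - ρ‖).prod := by
    refine pow_card_lt_prod _ ?_ s hs ?_
    · intro h0
      have h4 := congrArg Multiset.card h0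
      rw [Multiset.card_map, hcard, Multiset.card_zero] at h4
      omega
    · intro x hx
      obtain ⟨ρ, hρ, rfl⟩ := Multiset.mem_map.1 hx
      exact hcon ρ hρ
  rw [Multiset.card_map, hcard] at h3
  have h4 : 0 < ‖q.leadingCoeff‖ := norm_pos_iff.2 (Polynomial.leadingCoeff_ne_zero.2 hq0)
  have h5 := mul_lt_mul_of_pos_left h3 h4
  rw [← h2] at h5
  exact absurd h (not_le.2 h5)

/-- The integers at which a complex polynomial is small. -/
theorem card_small (q : Polynomial ℂ) (hq : 1 ≤ q.natDegree) (s : ℝ) (hs : 0 ≤ s) :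
    ∃ A : Finset ℤ, (A.card : ℝ) ≤ q.natDegree * (2 * s + 1) ∧
      ∀ t : ℤ, ‖q.eval (t : ℂ)‖ ≤ ‖q.leadingCoeff‖ * s ^ q.natDegree → t ∈ A := by
  classical
  refine ⟨q.roots.toFinset.biUnion fun ρ => Finset.Icc ⌈ρ.re - s⌉ ⌊ρ.re + s⌋, ?_, ?_⟩
  · have h1 : ∀ ρ : ℂ, ((Finset.Icc ⌈ρ.re - s⌉ ⌊ρ.re + s⌋).card : ℝ) ≤ 2 * s + 1 := by
      intro ρ
      rw [Int.card_Icc]
      have h2 : ((⌊ρ.re + s⌋ + 1 - ⌈ρ.re - s⌉ : ℤ) : ℝ) ≤ 2 * s + 1 := by
        push_cast
        have := Int.floor_le (ρ.re + s)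
        have := Int.le_ceil (ρ.re - s)
        linarith
      have h3 : (((⌊ρ.re + s⌋ + 1 - ⌈ρ.re - s⌉).toNat : ℤ) : ℝ) ≤ 2 * s + 1 := by
        rw [Int.toNat_eq_max]
        push_cast
        refine max_le ?_ (by linarith)
        push_cast at h2
        exact h2
      exact_mod_cast h3
    have hc : (q.roots.toFinset.card : ℝ) ≤ q.natDegree := by
      exact_mod_cast (Multiset.toFinset_card_le _).trans (Polynomial.card_roots' q)
    calc ((q.roots.toFinset.biUnion fun ρ => Finset.Icc ⌈ρ.re - s⌉ ⌊ρ.re + s⌋).card : ℝ)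
        ≤ ∑ ρ ∈ q.roots.toFinset, ((Finset.Icc ⌈ρ.re - s⌉ ⌊ρ.re + s⌋).card : ℝ) := by
          exact_mod_cast Finset.card_biUnion_le
      _ ≤ ∑ _ρ ∈ q.roots.toFinset, (2 * s + 1) := Finset.sum_le_sum fun ρ _ => h1 ρ
      _ = q.roots.toFinset.card * (2 * s + 1) := by rw [Finset.sum_const, nsmul_eq_mul]
      _ ≤ q.natDegree * (2 * s + 1) := mul_le_mul_of_nonneg_right hc (by linarith)
  · intro t ht
    obtain ⟨ρ, hρ, h1⟩ := exists_root_close q hq t s hs ht
    rw [Finset.mem_biUnion]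
    refine ⟨ρ, Multiset.mem_toFinset.2 hρ, ?_⟩
    have h2 : |(t : ℝ) - ρ.re| ≤ s := by
      have h3 := Complex.abs_re_le_norm ((t : ℂ) - ρ)
      rw [Complex.sub_re, Complex.intCast_re] at h3
      exact h3.trans h1
    rw [abs_le] at h2
    rw [Finset.mem_Icc, Int.ceil_le, Int.le_floor]
    constructor <;> linarith

/-- The polynomial in the last variable. -/
noncomputable def slice (f : MvPolynomial (Fin (m + 1)) ℂ) (α : Fin m → ℂ) : Polynomial ℂ :=
  aeval (Fin.snoc (fun i => Polynomial.C (α i)) Polynomial.X : Fin (m + 1) → Polynomial ℂ) f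

theorem slice_eq (f : MvPolynomial (Fin (m + 1)) ℂ) (α : Fin m → ℂ) :
    slice f α = ∑ s ∈ f.support,
      Polynomial.C (coeff s f * ∏ i : Fin m, α i ^ s i.castSucc) *
        Polynomial.X ^ s (Fin.last m) := by
  rw [slice, aeval_def, eval₂_eq']
  refine Finset.sum_congr rfl fun s _ => ?_
  rw [Fin.prod_univ_castSucc]
  simp only [Fin.snoc_castSucc, Fin.snoc_last]
  rw [Polynomial.C_mul, map_prod, ← mul_assoc]
  simp only [Polynomial.C_pow]
  rfl

theorem eval_slice (f : MvPolynomial (Fin (m + 1)) ℂ) (α : Fin m → ℂ) (t : ℂ) :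
    (slice f α).eval t = eval (Fin.snoc α t : Fin (m + 1) → ℂ) f := by
  rw [slice_eq, Polynomial.eval_finsetSum, eval_eq']
  refine Finset.sum_congr rfl fun s _ => ?_
  rw [Fin.prod_univ_castSucc]
  simp only [Fin.snoc_castSucc, Fin.snoc_last]
  rw [Polynomial.eval_mul, Polynomial.eval_C, Polynomial.eval_pow, Polynomial.eval_X, mul_assoc]

theorem slice_coeff {f : MvPolynomial (Fin (m + 1)) ℂ} (hf : f.totalDegree ≤ d) (α : Fin m → ℂ) :
    (slice f α).coeff d = coeff (Finsupp.single (Fin.last m) d) f := by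
  classical
  rw [slice_eq, Polynomial.finsetSum_coeff]
  have hkey : ∀ s ∈ f.support, s ≠ Finsupp.single (Fin.last m) d →
      (Polynomial.C (coeff s f * ∏ i : Fin m, α i ^ s i.castSucc) *
        Polynomial.X ^ s (Fin.last m)).coeff d = 0 := by
    intro s hs hne
    rw [Polynomial.coeff_C_mul_X_pow, if_neg]
    intro hd
    apply hne
    have h1 : s.degree ≤ d := (le_totalDegree hs).trans hf
    rw [Finsupp.degree_eq_sum, Fin.sum_univ_castSucc, ← hd] at h1
    have h2 : ∑ i : Fin m, s i.castSucc = 0 := by omega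
    rw [Finset.sum_eq_zero_iff] at h2
    ext j
    refine Fin.lastCases ?_ (fun i => ?_) j
    · simp [hd]
    · rw [h2 i (Finset.mem_univ _), Finsupp.single_apply, if_neg (Fin.castSucc_lt_last i).ne']
  by_cases hmem : Finsupp.single (Fin.last m) d ∈ f.support
  · rw [Finset.sum_eq_single_of_mem _ hmem hkey, Polynomial.coeff_C_mul_X_pow, if_pos (by simp)]
    have : ∏ i : Fin m, α i ^ (Finsupp.single (Fin.last m) d : Fin (m + 1) →₀ ℕ) i.castSucc =
        1 := by
      refine Finset.prod_eq_one fun i _ => ?_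
      rw [Finsupp.single_apply, if_neg (Fin.castSucc_lt_last i).ne', pow_zero]
    rw [this, mul_one]
  · rw [notMem_support_iff.1 hmem]
    exact Finset.sum_eq_zero fun s hs => hkey s hs fun h => hmem (h ▸ hs)

theorem slice_natDegree_le {f : MvPolynomial (Fin (m + 1)) ℂ} (hf : f.totalDegree ≤ d)
    (α : Fin m → ℂ) : (slice f α).natDegree ≤ d := by
  rw [slice_eq]
  refine Polynomial.natDegree_sum_le_of_forall_le _ _ fun s hs => ?_
  refine (Polynomial.natDegree_C_mul_X_pow_le _ _).trans ?_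
  have h1 : s.degree ≤ d := (le_totalDegree hs).trans hf
  rw [Finsupp.degree_eq_sum, Fin.sum_univ_castSucc] at h1
  omega

/-- the usual absolute value of the complex numbers -/
noncomputable def nvC : AbsoluteValue ℂ ℝ where
  toFun x := ‖x‖
  map_mul' := norm_mul
  nonneg' := norm_nonneg
  eq_zero' _ := norm_eq_zero
  add_le' := norm_add_le

/-- **Most starting points.** -/
theorem most_points (hd : 2 ≤ d) (he : e < d)
    {Φ : Fin (m + 1) → MvPolynomial (Fin (m + 1)) ℂ} (deg : ∀ i, (Φ i).totalDegree ≤ wd d e i)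
    (top : ca d Φ ≠ 0)
    (hT : ∀ F : MvPolynomial (Fin (m + 1)) ℂ, F ≠ 0 → ∃ k,
      coeff (Finsupp.single (Fin.last m) (((fun G => bind₁ Φ G)^[k] F).totalDegree))
        ((fun G => bind₁ Φ G)^[k] F) ≠ 0) :
    ∃ C : ℝ, ∀ B : ℕ, 1 ≤ B →
      {α : Fin (m + 1) → ℤ | (∀ i, |α i| ≤ (B : ℤ)) ∧
        ∃ F : MvPolynomial (Fin (m + 1)) ℂ, F ≠ 0 ∧
          {n | eval ((pm Φ)^[n] (fun i => (α i : ℂ))) F = 0}.Infinite}.Finite ∧
      ({α : Fin (m + 1) → ℤ | (∀ i, |α i| ≤ (B : ℤ)) ∧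
        ∃ F : MvPolynomial (Fin (m + 1)) ℂ, F ≠ 0 ∧
          {n | eval ((pm Φ)^[n] (fun i => (α i : ℂ))) F = 0}.Infinite}.ncard : ℝ) ≤
        C * (B : ℝ) ^ ((m : ℝ) + (e : ℝ) / d) := by
  classical
  obtain ⟨lam, R₀, hlam1, hR₀1, htrap⟩ := trapped nvC hd he deg top
  have hdL : (Φ (Fin.last m)).totalDegree ≤ d := by
    have h1 := deg (Fin.last m)
    rwa [wd, if_pos rfl] at h1
  have hdi : ∀ i : Fin m, (Φ i.castSucc).totalDegree ≤ e := by
    intro i
    have h1 := deg i.castSucc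
    rwa [wd, if_neg (Fin.castSucc_lt_last i).ne] at h1
  set S : ℝ := ∑ i, ∑ s ∈ (Φ i).support, nvC (coeff s (Φ i)) with hS
  have hSi0 : ∀ i, 0 ≤ ∑ s ∈ (Φ i).support, nvC (coeff s (Φ i)) :=
    fun i => Finset.sum_nonneg fun s _ => nvC.nonneg _
  have hS0 : 0 ≤ S := Finset.sum_nonneg fun i _ => hSi0 i
  have hSi : ∀ i, ∑ s ∈ (Φ i).support, nvC (coeff s (Φ i)) ≤ S := fun i =>
    Finset.single_le_sum (f := fun i => ∑ s ∈ (Φ i).support, nvC (coeff s (Φ i)))
      (fun i _ => hSi0 i) (Finset.mem_univ i)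
  set a : ℂ := coeff (Finsupp.single (Fin.last m) d) (Φ (Fin.last m)) with ha
  have ha0 : a ≠ 0 := top
  have han : 0 < ‖a‖ := norm_pos_iff.2 ha0
  set T : ℝ := (R₀ + lam * S) / ‖a‖ with hT'
  have hT0 : 0 ≤ T := by positivity
  have hdR : (0 : ℝ) < d := by
    have : 0 < d := by omega
    exact_mod_cast this
  set κ : ℝ := T ^ ((1 : ℝ) / d) with hκ
  have hκ0 : 0 ≤ κ := Real.rpow_nonneg hT0 _
  refine ⟨(3 : ℝ) ^ m * (d * (2 * κ + 1)), fun B hB => ?_⟩
  have hB1 : (1 : ℝ) ≤ B := by exact_mod_cast hB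
  have hB0 : (0 : ℝ) < B := zero_lt_one.trans_le hB1
  set s : ℝ := κ * (B : ℝ) ^ ((e : ℝ) / d) with hs
  have hs0 : 0 ≤ s := mul_nonneg hκ0 (Real.rpow_nonneg hB0.le _)
  have hsd : s ^ d = T * (B : ℝ) ^ e := by
    rw [hs, mul_pow, hκ, ← Real.rpow_natCast, ← Real.rpow_natCast, ← Real.rpow_mul hT0,
      ← Real.rpow_mul hB0.le, div_mul_cancel₀ _ hdR.ne', div_mul_cancel₀ _ hdR.ne',
      Real.rpow_one, Real.rpow_natCast]
  -- the slices
  have hsl : ∀ β : Fin m → ℤ, ∃ A : Finset ℤ, (A.card : ℝ) ≤ d * (2 * s + 1) ∧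
      ∀ t : ℤ, ‖eval (Fin.snoc (fun i => (β i : ℂ)) (t : ℂ) : Fin (m + 1) → ℂ)
        (Φ (Fin.last m))‖ ≤ ‖a‖ * s ^ d → t ∈ A := by
    intro β
    set q := slice (Φ (Fin.last m)) (fun i => (β i : ℂ)) with hq
    have h1 : q.coeff d = a := slice_coeff hdL _
    have h2 : q.natDegree = d := by
      refine le_antisymm (slice_natDegree_le hdL _) ?_
      refine Polynomial.le_natDegree_of_ne_zero ?_
      rw [h1]
      exact ha0
    have h3 : q.leadingCoeff = a := by rw [Polynomial.leadingCoeff, h2, h1]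
    obtain ⟨A, hA1, hA2⟩ := card_small q (by omega) s hs0
    refine ⟨A, by rwa [h2] at hA1, fun t ht => hA2 t ?_⟩
    rw [hq, eval_slice, ← hq, h3, h2]
    exact ht
  choose A hA1 hA2 using hsl
  set I : Finset ℤ := Finset.Icc (-(B : ℤ)) B with hI
  set big : Finset (Fin (m + 1) → ℤ) := (Fintype.piFinset fun _ : Fin m => I).biUnion fun β =>
    (A β).image fun t => (Fin.snoc β t : Fin (m + 1) → ℤ) with hbig
  have hsub : {α : Fin (m + 1) → ℤ | (∀ i, |α i| ≤ (B : ℤ)) ∧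
        ∃ F : MvPolynomial (Fin (m + 1)) ℂ, F ≠ 0 ∧
          {n | eval ((pm Φ)^[n] (fun i => (α i : ℂ))) F = 0}.Infinite} ⊆ (big : Set _) := by
    rintro α ⟨hα, F, hF, hinf⟩
    rw [hbig, Finset.mem_coe, Finset.mem_biUnion]
    refine ⟨fun i => α i.castSucc, ?_, ?_⟩
    · rw [Fintype.mem_piFinset]
      intro i
      rw [hI, Finset.mem_Icc]
      exact abs_le.1 (hα _)
    rw [Finset.mem_image]
    refine ⟨α (Fin.last m), ?_, ?_⟩
    · apply hA2
      have hsnoc : (Fin.snoc (fun i : Fin m => ((α i.castSucc : ℤ) : ℂ))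
          ((α (Fin.last m) : ℤ) : ℂ) : Fin (m + 1) → ℂ) = fun i => (α i : ℂ) := by
        funext i
        refine Fin.lastCases ?_ (fun i => ?_) i
        · rw [Fin.snoc_last]
        · rw [Fin.snoc_castSucc]
      rw [hsnoc]
      obtain ⟨k, hk⟩ := hT F hF
      have hnot : ¬ Es nvC lam R₀ ((pm Φ)^[1] (fun i => (α i : ℂ))) := fun hE =>
        hinf (htrap _ ⟨1, hE⟩ F k hk)
      rw [Function.iterate_one, Es, not_and_or] at hnot
      have hαn : ∀ i, nvC ((fun i => (α i : ℂ)) i) ≤ B := by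
        intro i
        change ‖((α i : ℤ) : ℂ)‖ ≤ B
        rw [Complex.norm_intCast]
        exact_mod_cast hα i
      have hBe : 1 ≤ (B : ℝ) ^ e := one_le_pow₀ hB1
      have hR₀0 : 0 ≤ R₀ := zero_le_one.trans hR₀1
      have hlam0 : 0 ≤ lam := zero_le_one.trans hlam1
      have hgoal : nvC (pm Φ (fun i => (α i : ℂ)) (Fin.last m)) ≤ (R₀ + lam * S) * (B : ℝ) ^ e := by
        rcases hnot with h1 | h1
        · push Not at h1
          have h2 : R₀ * 1 ≤ (R₀ + lam * S) * (B : ℝ) ^ e :=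
            mul_le_mul (by have := mul_nonneg hlam0 hS0; linarith) hBe zero_le_one (by positivity)
          linarith
        · push Not at h1
          obtain ⟨i, hi⟩ := h1
          have h2 : nvC (pm Φ (fun i => (α i : ℂ)) i.castSucc) ≤ S * (B : ℝ) ^ e := by
            refine (eval_le nvC (hdi i) _ (B : ℝ) hB1 hαn).trans ?_
            exact mul_le_mul_of_nonneg_right (hSi _) (by positivity)
          have h3 : lam * nvC (pm Φ (fun i => (α i : ℂ)) i.castSucc) ≤ lam * (S * (B : ℝ) ^ e) :=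
            mul_le_mul_of_nonneg_left h2 hlam0
          have h4 : 0 ≤ R₀ * (B : ℝ) ^ e := by positivity
          nlinarith
      have h5 : ‖a‖ * s ^ d = (R₀ + lam * S) * (B : ℝ) ^ e := by
        rw [hsd, hT']
        field_simp
      rw [h5]
      exact hgoal
    · funext i
      refine Fin.lastCases ?_ (fun i => ?_) i
      · rw [Fin.snoc_last]
      · rw [Fin.snoc_castSucc]
  refine ⟨big.finite_toSet.subset hsub, ?_⟩
  have hcard : ({α : Fin (m + 1) → ℤ | (∀ i, |α i| ≤ (B : ℤ)) ∧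
        ∃ F : MvPolynomial (Fin (m + 1)) ℂ, F ≠ 0 ∧
          {n | eval ((pm Φ)^[n] (fun i => (α i : ℂ))) F = 0}.Infinite}.ncard : ℝ) ≤ big.card := by
    rw [← Set.ncard_coe_finset]
    exact_mod_cast Set.ncard_le_ncard hsub big.finite_toSet
  refine hcard.trans ?_
  have hBe : 1 ≤ (B : ℝ) ^ ((e : ℝ) / d) := Real.one_le_rpow hB1 (by positivity)
  have h1 : (big.card : ℝ) ≤ ((2 * B + 1 : ℕ) : ℝ) ^ m * (d * (2 * s + 1)) := by
    calc (big.card : ℝ) ≤ ∑ β ∈ Fintype.piFinset fun _ : Fin m => I,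
          (((A β).image fun t => (Fin.snoc β t : Fin (m + 1) → ℤ)).card : ℝ) := by
          exact_mod_cast Finset.card_biUnion_le
      _ ≤ ∑ _β ∈ Fintype.piFinset fun _ : Fin m => I, (d : ℝ) * (2 * s + 1) := by
          refine Finset.sum_le_sum fun β _ => ?_
          refine le_trans ?_ (hA1 β)
          exact_mod_cast Finset.card_image_le
      _ = ((2 * B + 1 : ℕ) : ℝ) ^ m * (d * (2 * s + 1)) := by
          rw [Finset.sum_const, nsmul_eq_mul, Fintype.card_piFinset, Finset.prod_const,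
            Finset.card_univ, Fintype.card_fin]
          have hIc : I.card = 2 * B + 1 := by
            rw [hI, Int.card_Icc]
            omega
          rw [hIc]
          push_cast
          ring
  refine h1.trans ?_
  have h2 : ((2 * B + 1 : ℕ) : ℝ) ^ m ≤ (3 : ℝ) ^ m * (B : ℝ) ^ m := by
    rw [← mul_pow]
    refine pow_le_pow_left₀ (by positivity) ?_ m
    push_cast
    linarith
  have h3 : (d : ℝ) * (2 * s + 1) ≤ d * (2 * κ + 1) * (B : ℝ) ^ ((e : ℝ) / d) := by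
    rw [hs, mul_assoc]
    refine mul_le_mul_of_nonneg_left ?_ hdR.le
    nlinarith
  calc ((2 * B + 1 : ℕ) : ℝ) ^ m * (d * (2 * s + 1))
      ≤ ((3 : ℝ) ^ m * (B : ℝ) ^ m) * (d * (2 * κ + 1) * (B : ℝ) ^ ((e : ℝ) / d)) :=
        mul_le_mul h2 h3 (by positivity) (by positivity)
    _ = (3 : ℝ) ^ m * (d * (2 * κ + 1)) * ((B : ℝ) ^ m * (B : ℝ) ^ ((e : ℝ) / d)) := by ring
    _ = (3 : ℝ) ^ m * (d * (2 * κ + 1)) * (B : ℝ) ^ ((m : ℝ) + (e : ℝ) / d) := by
        rw [Real.rpow_add hB0, Real.rpow_natCast]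

end Pool.Agent.Helper86.MPT
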