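import Pool.Agent.Helper86.MPT.Most
import Pool.Agent.Helper26.DV.Term

/-!
# Arbitrary degree vectors whose maximum is attained once: the gap theorem and most starting points
-/

set_option autoImplicit false

namespace Pool.Agent.Helper86.MPT

open MvPolynomial
open Pool.Agent.Helper86.MQ (pm)
open Pool.Agent.Helper86.GT (gap local_gap)
open Pool.Agent.Helper26.GT (wd ca)
open Pool.Agent.Helper26.DV

variable {K : Type*} [Field K] [CharZero K] {m e : ℕ} {w : Fin (m + 1) → ℕ}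
variable {Φ : Fin (m + 1) → MvPolynomial (Fin (m + 1)) K}

theorem vdom_top (hw : ∀ i : Fin m, 1 ≤ w i.castSucc ∧ w i.castSucc < w (Fin.last m))
    (h1 : 1 ≤ w (Fin.last m)) (hΦ : VDom w Φ) : ca (w (Fin.last m)) Φ ≠ 0 := by
  obtain ⟨L, U, b, hJ, hdet, hdiag, hlow, hup, hvec, hspan⟩ := hΦ.lu
  have h : Fac w Φ L U b :=
    { deg := hΦ.deg
      one := fun i => Fin.lastCases h1 (fun k => (hw k).1) i
      lt := fun i => Fin.lastCases (fun h => absurd rfl h) (fun k _ => (hw k).2) i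
      eq := hJ
      det := hdet
      diag := hdiag
      low := hlow
      up := hup
      vec := hvec }
  exact h.z_ne

omit [CharZero K] in
theorem vdom_deg (he : ∀ i : Fin m, w i.castSucc ≤ e) (hΦ : VDom w Φ) (i : Fin (m + 1)) :
    (Φ i).totalDegree ≤ wd (w (Fin.last m)) e i := by
  refine Fin.lastCases ?_ (fun i => ?_) i
  · rw [wd, if_pos rfl]
    exact hΦ.deg _
  · rw [wd, if_neg (Fin.castSucc_lt_last i).ne]
    exact (hΦ.deg _).trans (he i)

/-- **The gap theorem for arbitrary degree vectors whose maximum is attained once.** -/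
theorem vgap (v : AbsoluteValue K ℝ)
    (hw : ∀ i : Fin m, 1 ≤ w i.castSucc ∧ w i.castSucc < w (Fin.last m))
    (hd : 2 ≤ w (Fin.last m)) (he : ∀ i : Fin m, w i.castSucc ≤ e) (hed : e < w (Fin.last m))
    (hΦ : VDom w Φ) (x : Fin (m + 1) → K) {F : MvPolynomial (Fin (m + 1)) K} (hF : F ≠ 0)
    (hinf : {n | eval ((pm Φ)^[n] x) F = 0}.Infinite) :
    ∃ C : ℝ, ∀ n i, Real.log (max 1 (v ((pm Φ)^[n] x i))) ≤
      C * ∑ j ∈ Finset.range (n + 1), (e : ℝ) ^ j := by
  rcases gap v hd hed (vdom_deg he hΦ) (vdom_top hw (by omega) hΦ) x with h | h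
  · exact h
  · obtain ⟨k, hk⟩ := term hw (by omega) hΦ hF
    exact absurd (h F k hk) hinf

/-- **Most starting points, for arbitrary degree vectors whose maximum is attained once.** -/
theorem most_points_v
    (hw : ∀ i : Fin m, 1 ≤ w i.castSucc ∧ w i.castSucc < w (Fin.last m))
    (hd : 2 ≤ w (Fin.last m)) (he : ∀ i : Fin m, w i.castSucc ≤ e) (hed : e < w (Fin.last m))
    {Φ : Fin (m + 1) → MvPolynomial (Fin (m + 1)) ℂ} (hΦ : VDom w Φ) :
    ∃ C : ℝ, ∀ B : ℕ, 1 ≤ B →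
      {α : Fin (m + 1) → ℤ | (∀ i, |α i| ≤ (B : ℤ)) ∧
        ∃ F : MvPolynomial (Fin (m + 1)) ℂ, F ≠ 0 ∧
          {n | eval ((pm Φ)^[n] (fun i => (α i : ℂ))) F = 0}.Infinite}.Finite ∧
      ({α : Fin (m + 1) → ℤ | (∀ i, |α i| ≤ (B : ℤ)) ∧
        ∃ F : MvPolynomial (Fin (m + 1)) ℂ, F ≠ 0 ∧
          {n | eval ((pm Φ)^[n] (fun i => (α i : ℂ))) F = 0}.Infinite}.ncard : ℝ) ≤
        C * (B : ℝ) ^ ((m : ℝ) + (e : ℝ) / (w (Fin.last m) : ℕ)) :=
  most_points hd hed (vdom_deg he hΦ) (vdom_top hw (by omega) hΦ)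
    fun _ hF => term hw (by omega) hΦ hF

end Pool.Agent.Helper86.MPT
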